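import Pool.Agent.H53.RP.Defs
import Pool.Agent.H81.Affine

/-!
The affine case without any condition on the metric circles.
-/

open Set Filter Topology Real MeasureTheory

namespace Pool.Agent.H53.RP

open Pool.Agent.H81

namespace AffinePlane0

variable {M : Set (ℝ × ℝ)} {d : ℝ × ℝ → ℝ × ℝ → ℝ}

lemma dself (h : AffinePlane0 M d) {x : ℝ × ℝ} (hx : x ∈ M) : d x x = 0 :=
  (h.metric.eq_zero x hx x hx).2 rfl

lemma dnonneg (h : AffinePlane0 M d) {x y : ℝ × ℝ} (hx : x ∈ M) (hy : y ∈ M) : 0 ≤ d x y := by
  have h1 := h.metric.triangle x hx y hy x hx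
  rw [h.dself hx, h.metric.symm y hy x hx] at h1
  linarith

lemma line_mem {p v : ℝ × ℝ} (hp : p ∈ M) (hv : v ≠ 0) :
    {x | x ∈ M ∧ ∃ t : ℝ, x = p + t • v} ∈ MLines M :=
  ⟨⟨p, hp, 0, by simp⟩, p, v, hv, rfl⟩

/-- the isometric parametrisation of the line through `p` in direction `v` -/
lemma param (h : AffinePlane0 M d) {p v : ℝ × ℝ} (hp : p ∈ M) (hv : v ≠ 0) :
    ∃ γ : ℝ → ℝ × ℝ, (∀ s, γ s ∈ M ∧ ∃ t : ℝ, γ s = p + t • v) ∧
      (∀ t : ℝ, p + t • v ∈ M → ∃ s, γ s = p + t • v) ∧ ∀ s t, d (γ s) (γ t) = |s - t| := by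
  obtain ⟨-, γ, hr, hiso⟩ := (h.geodesic _).2 (line_mem hp hv)
  refine ⟨γ, ?_, ?_, hiso⟩
  · intro s
    have : γ s ∈ range γ := mem_range_self s
    rw [hr] at this
    exact this
  · intro t ht
    have : p + t • v ∈ range γ := by
      rw [hr]; exact ⟨ht, t, rfl⟩
    exact this

/-- additivity of the distance along segments -/
lemma add (h : AffinePlane0 M d) {x y : ℝ × ℝ} (hx : x ∈ M) (hy : y ∈ M) {t : ℝ}
    (ht : t ∈ Icc (0:ℝ) 1) : d x y = d x (x + t • (y - x)) + d (x + t • (y - x)) y := by
  by_cases hxy : y - x = 0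
  · have hyx : y = x := sub_eq_zero.1 hxy
    subst hyx
    rw [sub_self, smul_zero, add_zero, h.dself hy, add_zero]
  · obtain ⟨γ, -, hγ, hiso⟩ := h.param hx hxy
    have hseg : ∀ t ∈ Icc (0:ℝ) 1, x + t • (y - x) ∈ M := fun t ht =>
      h.convex.add_smul_sub_mem hx hy ht
    have hex : ∀ t : ℝ, ∃ s, t ∈ Icc (0:ℝ) 1 → γ s = x + t • (y - x) := by
      intro t
      by_cases ht : t ∈ Icc (0:ℝ) 1
      · obtain ⟨s, hs⟩ := hγ t (hseg t ht)
        exact ⟨s, fun _ => hs⟩
      · exact ⟨0, fun h => absurd h ht⟩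
    choose φ hφ using hex
    have hd : ∀ a ∈ Icc (0:ℝ) 1, ∀ b ∈ Icc (0:ℝ) 1,
        d (x + a • (y - x)) (x + b • (y - x)) = |φ a - φ b| := by
      intro a ha b hb
      rw [← hφ a ha, ← hφ b hb, hiso]
    have hc : ContinuousOn φ (Icc 0 1) := by
      intro a ha
      rw [ContinuousWithinAt, tendsto_iff_dist_tendsto_zero]
      have c1 : ContinuousWithinAt (fun b : ℝ => d (x + b • (y - x)) (x + a • (y - x)))
          (Icc 0 1) a := by
        have c2 : Continuous fun b : ℝ => ((x + b • (y - x), x + a • (y - x)) :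
          (ℝ × ℝ) × (ℝ × ℝ)) := by fun_prop
        exact (h.continuous.comp c2.continuousOn (fun b hb => ⟨hseg b hb, hseg a ha⟩)) a ha
      have c3 : Tendsto (fun b : ℝ => d (x + b • (y - x)) (x + a • (y - x))) (𝓝[Icc 0 1] a)
          (𝓝 0) := by
        have := c1.tendsto
        rwa [h.dself (hseg a ha)] at this
      apply c3.congr'
      filter_upwards [self_mem_nhdsWithin] with b hb
      rw [hd b hb a ha, Real.dist_eq]
    have hinj : InjOn φ (Icc 0 1) := by
      intro a ha b hb hab
      have h1 := hd a ha b hb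
      rw [hab, sub_self, abs_zero] at h1
      have h2 := (h.metric.eq_zero _ (hseg a ha) _ (hseg b hb)).1 h1
      have h3 : (a - b) • (y - x) = 0 := by
        rw [sub_smul, sub_eq_zero]; exact add_left_cancel h2
      rcases smul_eq_zero.1 h3 with h4 | h4
      · linarith
      · exact absurd h4 hxy
    have h0 : (0:ℝ) ∈ Icc (0:ℝ) 1 := by simp
    have h1 : (1:ℝ) ∈ Icc (0:ℝ) 1 := by simp
    have e0 := hd 0 h0 t ht
    have e1 := hd t ht 1 h1
    have e2 := hd 0 h0 1 h1
    rw [zero_smul, add_zero] at e0 e2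
    rw [one_smul, add_sub_cancel] at e1 e2
    rw [e0, e1, e2]
    rcases hc.strictMonoOn_of_injOn_Icc' zero_le_one hinj with hm | hm
    · have m1 := hm.monotoneOn h0 ht ht.1
      have m2 := hm.monotoneOn ht h1 ht.2
      rw [abs_of_nonpos (by linarith), abs_of_nonpos (by linarith), abs_of_nonpos (by linarith)]
      ring
    · have m1 := hm.antitoneOn h0 ht ht.1
      have m2 := hm.antitoneOn ht h1 ht.2
      rw [abs_of_nonneg (by linarith), abs_of_nonneg (by linarith), abs_of_nonneg (by linarith)]
      ring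

/-- rays are unbounded -/
lemma unbdd (h : AffinePlane0 M d) {x v : ℝ × ℝ} (hx : x ∈ M) (hv : v ≠ 0) (C : ℝ) :
    ∃ t : ℝ, 0 < t ∧ x + t • v ∈ M ∧ C < d x (x + t • v) := by
  wlog hC : 0 < C generalizing C with H
  · obtain ⟨t, h1, h2, h3⟩ := H 1 one_pos
    exact ⟨t, h1, h2, by linarith⟩
  by_contra hcon
  push Not at hcon
  obtain ⟨γ, hγM, hγ, hiso⟩ := h.param hx hv
  obtain ⟨s0, hs0⟩ := hγ 0 (by simpa using hx)
  rw [zero_smul, add_zero] at hs0
  obtain ⟨hpM, t1, hp⟩ := hγM (s0 + (C + 1))
  obtain ⟨hqM, t2, hq⟩ := hγM (s0 - (C + 1))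
  have hdp : d x (x + t1 • v) = C + 1 := by
    rw [← hp, ← hs0, hiso, abs_of_nonpos (by linarith)]; ring
  have hdq : d x (x + t2 • v) = C + 1 := by
    rw [← hq, ← hs0, hiso, abs_of_nonneg (by linarith)]; ring
  have hdpq : d (x + t1 • v) (x + t2 • v) = 2 * (C + 1) := by
    rw [← hp, ← hq, hiso, abs_of_nonneg (by linarith)]; ring
  have hneg : ∀ t : ℝ, x + t • v ∈ M → d x (x + t • v) = C + 1 → t < 0 := by
    intro t htM hd
    rcases lt_trichotomy t 0 with h0 | h0 | h0
    · exact h0
    · rw [h0, zero_smul, add_zero, h.dself hx] at hd; linarith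
    · have := hcon t h0 htM
      linarith
  rw [hp] at hpM
  rw [hq] at hqM
  have n1 := hneg t1 hpM hdp
  have n2 := hneg t2 hqM hdq
  have key : ∀ a b : ℝ, x + a • v ∈ M → x + b • v ∈ M → a < 0 → b ≤ 0 → a ≤ b →
      d x (x + a • v) = d x (x + b • v) + d (x + b • v) (x + a • v) := by
    intro a b ha hb ha0 hb0 hab
    have := h.add hx ha (t := b / a) ⟨div_nonneg_of_nonpos hb0 ha0.le, by
      rw [div_le_one_of_neg ha0]; exact hab⟩
    have e1 : x + (b / a) • (x + a • v - x) = x + b • v := by
      rw [add_sub_cancel_left, smul_smul, div_mul_cancel₀ _ ha0.ne]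
    rwa [e1] at this
  rcases le_total t1 t2 with h12 | h12
  · have := key t1 t2 hpM hqM n1 n2.le h12
    rw [h.metric.symm _ hqM _ hpM] at this
    linarith
  · have := key t2 t1 hqM hpM n2 n1.le h12
    linarith

end AffinePlane0

namespace AF

variable {M : Set (ℝ × ℝ)} {F : ℝ × ℝ → ℝ × ℝ → ℝ} {d : ℝ × ℝ → ℝ × ℝ → ℝ}

lemma freg (h : AffinePlane0 M d) (hF : AffineFinsler M F d) : FReg M F where
  isOpen := h.isOpen
  smooth := hF.smooth
  pos := fun x hx => (hF.norm x hx).pos
  hom := fun x hx => (hF.norm x hx).hom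

lemma locGeo (h : AffinePlane0 M d) (hF : AffineFinsler M F d) : LocGeo M F d where
  toFReg := freg h hF
  norm := hF.norm
  conv := h.convex
  dself := fun _ hx => h.dself hx
  dsymm := h.metric.symm
  tri := h.metric.triangle
  add := fun _ hx _ hy _ ht => h.add hx hy ht
  dcont := h.continuous
  lim := fun _ hx _ hv => (freg h hF).lim_of_gen hF.norm hF.generates hx hv

/-- symmetric perpendicularity of the tangent norm, in terms of the derivative -/
theorem _root_.Pool.Agent.H53.RP.radonAt_of {M : Set (ℝ × ℝ)} {F : ℝ × ℝ → ℝ × ℝ → ℝ} (hR : FReg M F) {x : ℝ × ℝ} (hx : x ∈ M)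
    (hN : SCNorm (F x)) (hS : NormSymPerp (F x)) : RadonAt F x := by
  intro v w hv hw hvw
  have h1 : ∀ t : ℝ, F x v ≤ F x (v + t • w) := by
    intro t
    have h6 := hR.pv_le (w := v + t • w) hx hN hv
    rwa [FReg.pv_add, FReg.pv_smul, hvw, mul_zero, add_zero, hR.pv_self hx hv] at h6
  have h2 := hS v w h1
  have h3 : HasDerivAt (fun s : ℝ => w + s • v) v 0 := by
    simpa using ((hasDerivAt_id (0:ℝ)).smul_const v).const_add w
  have h4 := hR.hasDerivAt_F_curve hx h3 (by simpa using hw)
  have h5 : IsLocalMin (fun s : ℝ => F x (w + s • v)) 0 := by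
    filter_upwards with s
    simpa using h2 s
  have h6 := h5.hasDerivAt_eq_zero h4
  simpa only [zero_smul, add_zero] using h6

lemma rreg (h : AffinePlane0 M d) (hF : AffineFinsler M F d) (hS : ∀ x ∈ M, NormSymPerp (F x)) :
    RReg M F where
  toFReg := freg h hF
  radon := fun x hx => radonAt_of (freg h hF) hx (hF.norm x hx) (hS x hx)
  hamel := fun _ hx => (locGeo h hF).hamel hx

/-- The affine part of the theorem. -/
theorem main (h : AffinePlane0 M d) (hF : AffineFinsler M F d) (hS : ∀ x ∈ M, NormSymPerp (F x)) :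
    RadonPlane M d ∨ ∀ x ∈ M, EuclideanNorm (F x) := by
  have hR := rreg h hF hS
  have hL := locGeo h hF
  rcases hR.rigidity h.convex with hE | ⟨b, hb1, hb2⟩
  · right
    intro x hx
    exact AffineFinsler.euclidean_of_euclAt (hE x hx)
  · left
    obtain ⟨x0, hx0⟩ := h.nonempty
    -- the slope `b` vanishes
    have hb0 : ∀ v, b v ≤ 0 := by
      intro v
      by_contra hcon
      push Not at hcon
      have hv : v ≠ 0 := by
        intro h0; rw [h0, map_zero] at hcon; exact lt_irrefl _ hcon
      set β := b v with hβ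
      set θ0 := th F x0 with hθ0
      have hθpos : 0 < θ0 := RReg.th_pos x0
      obtain ⟨T, hT, hTM, hTd⟩ := h.unbdd hx0 hv (θ0 * F x0 v / β)
      have hseg : ∀ t ∈ Icc (0:ℝ) 1, x0 + t • (T • v) ∈ M := by
        intro t ht
        have := h.convex.add_smul_sub_mem hx0 hTM ht
        simpa using this
      have hFt : ∀ t ∈ Icc (0:ℝ) 1, F (x0 + t • (T • v)) (T • v)
          = θ0 ^ 2 * (T * F x0 v) / (θ0 + t * (T * β)) ^ 2 := by
        intro t ht
        have hTv : T • v ≠ 0 := smul_ne_zero hT.ne' hv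
        have hth : th F (x0 + t • (T • v)) = θ0 + t * (T * β) := by
          rw [hb1 x0 hx0 _ (hseg t ht)]
          simp [hβ, hθ0]
        have hpos : 0 < θ0 + t * (T * β) := by
          have : 0 ≤ t * (T * β) := mul_nonneg ht.1 (by positivity)
          linarith
        rcases ht.1.eq_or_lt with h0 | h0
        · rw [← h0, zero_smul, add_zero, zero_mul, add_zero, hL.hom x0 hx0, abs_of_pos hT]
          field_simp
        · have hne : x0 + t • (T • v) ≠ x0 := by
            intro h1
            have h1 : t • (T • v) = 0 := by simpa using h1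
            exact smul_ne_zero h0.ne' hTv h1
          have := hR.line_formula h.convex hx0 (hseg t ht) hne
          rw [hth, add_sub_cancel_left, hL.hom _ (hseg t ht), hL.hom x0 hx0, abs_of_pos h0,
            hL.hom x0 hx0, abs_of_pos hT] at this
          rw [eq_div_iff (by positivity)]
          have h5 : t * (F (x0 + t • (T • v)) (T • v) * (θ0 + t * (T * β)) ^ 2) =
            t * (θ0 ^ 2 * (T * F x0 v)) := by rw [← hθ0] at this; linarith
          exact mul_left_cancel₀ h0.ne' h5
      have hd := hL.d_eq hx0 hTM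
      rw [add_sub_cancel_left] at hd
      have hint : ∫ t in (0:ℝ)..1, F (x0 + t • (T • v)) (T • v) =
          (fun t : ℝ => -(θ0 ^ 2 * F x0 v / β) / (θ0 + t * (T * β))) 1
            - (fun t : ℝ => -(θ0 ^ 2 * F x0 v / β) / (θ0 + t * (T * β))) 0 := by
        apply intervalIntegral.integral_eq_sub_of_hasDerivAt
          (f := fun t : ℝ => -(θ0 ^ 2 * F x0 v / β) / (θ0 + t * (T * β)))
          (f' := fun t : ℝ => F (x0 + t • (T • v)) (T • v))
        · intro t ht
          rw [uIcc_of_le zero_le_one] at ht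
          have hpos : 0 < θ0 + t * (T * β) := by
            have : 0 ≤ t * (T * β) := mul_nonneg ht.1 (by positivity)
            linarith
          have h1 : HasDerivAt (fun t : ℝ => θ0 + t * (T * β)) (T * β) t := by
            simpa using ((hasDerivAt_id t).mul_const (T * β)).const_add θ0
          have h2 := (hasDerivAt_const t (-(θ0 ^ 2 * F x0 v / β))).div h1 hpos.ne'
          refine h2.congr_deriv ?_
          rw [hFt t ht]
          field_simp
          ring
        · apply ContinuousOn.intervalIntegrable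
          rw [uIcc_of_le zero_le_one]
          have c1 : Continuous fun t : ℝ => ((x0 + t • (T • v), T • v) :
            (ℝ × ℝ) × (ℝ × ℝ)) := by fun_prop
          exact hL.cont.comp c1.continuousOn (fun s hs => ⟨hseg s hs, mem_univ _⟩)
      rw [hd, hint] at hTd
      have hF0 := hL.pos x0 hx0 v hv
      have hpos1 : 0 < θ0 + 1 * (T * β) := by positivity
      have hlast : (fun t : ℝ => -(θ0 ^ 2 * F x0 v / β) / (θ0 + t * (T * β))) 1
            - (fun t : ℝ => -(θ0 ^ 2 * F x0 v / β) / (θ0 + t * (T * β))) 0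
          ≤ θ0 * F x0 v / β := by
        have e0 : (fun t : ℝ => -(θ0 ^ 2 * F x0 v / β) / (θ0 + t * (T * β))) 0
            = -(θ0 * F x0 v / β) := by
          simp only [zero_mul, add_zero]; field_simp
        have e1 : (fun t : ℝ => -(θ0 ^ 2 * F x0 v / β) / (θ0 + t * (T * β))) 1 ≤ 0 := by
          simp only
          rw [neg_div]
          have : 0 ≤ θ0 ^ 2 * F x0 v / β / (θ0 + 1 * (T * β)) := by positivity
          linarith
        rw [e0]; linarith
      linarith
    have hb : ∀ v, b v = 0 := by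
      intro v
      have h1 := hb0 v
      have h2 := hb0 (-v)
      rw [map_neg] at h2
      linarith
    -- `F` is translation invariant
    have hFc : ∀ x ∈ M, ∀ v, F x v = F x0 v := by
      intro x hx v
      by_cases hv : v = 0
      · rw [hv, (hF.norm x hx).zero, (hF.norm x0 hx0).zero]
      · have hd : ∀ y ∈ M, HasFDerivAt (fun y => F y v) (0 : ℝ × ℝ →L[ℝ] ℝ) y := by
          intro y hy
          have c1 : HasFDerivAt (fun y : ℝ × ℝ => ((y, v) : (ℝ × ℝ) × (ℝ × ℝ)))
              (ContinuousLinearMap.inl ℝ (ℝ × ℝ) (ℝ × ℝ)) y := hasFDerivAt_prodMk_left y v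
          have c2 := (hL.hasF hy hv).comp y c1
          refine c2.congr_fderiv ?_
          ext
          · have := hb2 y hy v hv (1, 0)
            rw [hb, hb, zero_mul, zero_mul, add_zero, neg_zero] at this
            rcases mul_eq_zero.1 this with h3 | h3
            · exact absurd h3 (RReg.th_pos y).ne'
            · simpa [px] using h3
          · have := hb2 y hy v hv (0, 1)
            rw [hb, hb, zero_mul, zero_mul, add_zero, neg_zero] at this
            rcases mul_eq_zero.1 this with h3 | h3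
            · exact absurd h3 (RReg.th_pos y).ne'
            · simpa [px] using h3
        exact h.isOpen.is_const_of_fderiv_eq_zero (𝕜 := ℝ) h.convex.isPreconnected
          (f := fun y => F y v)
          (fun y hy => (hd y hy).differentiableAt.differentiableWithinAt)
          (fun y hy => (hd y hy).fderiv) hx hx0
    have hdN : ∀ x ∈ M, ∀ y ∈ M, d x y = F x0 (y - x) := by
      intro x hx y hy
      rw [hL.d_eq hx hy]
      have : ∀ t ∈ Icc (0:ℝ) 1, F (x + t • (y - x)) (y - x) = F x0 (y - x) := fun t ht =>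
        hFc _ (hL.seg hx hy ht) _
      rw [intervalIntegral.integral_congr (g := fun _ => F x0 (y - x))]
      · simp
      · intro t ht
        rw [uIcc_of_le zero_le_one] at ht
        exact this t ht
    have hMu : M = univ := by
      rw [eq_univ_iff_forall]
      intro y
      by_cases hy : y - x0 = 0
      · rw [sub_eq_zero.1 hy]; exact hx0
      · obtain ⟨t, ht, htM, htd⟩ := h.unbdd hx0 hy (F x0 (y - x0))
        rw [hdN x0 hx0 _ htM, add_sub_cancel_left, hL.hom x0 hx0, abs_of_pos ht] at htd
        have hpos := hL.pos x0 hx0 _ hy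
        have ht1 : 1 < t := by
          by_contra hcon
          push Not at hcon
          nlinarith
        have := h.convex.add_smul_sub_mem hx0 htM (t := 1 / t)
          ⟨by positivity, by rw [div_le_one ht]; exact ht1.le⟩
        rw [add_sub_cancel_left, smul_smul, one_div, inv_mul_cancel₀ ht.ne', one_smul,
          add_sub_cancel] at this
        exact this
    refine ⟨hMu, F x0, hF.norm x0 hx0, ?_, ?_⟩
    · intro x y
      rw [h.metric.symm x (hMu ▸ mem_univ x) y (hMu ▸ mem_univ y),
        hdN y (hMu ▸ mem_univ y) x (hMu ▸ mem_univ x)]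
    · intro v w hmin t
      by_cases hv : v = 0
      · rw [hv, smul_zero, add_zero]
      by_cases hw : w = 0
      · rw [hw, (hF.norm x0 hx0).zero]; exact (hF.norm x0 hx0).nonneg _
      have h1 : HasDerivAt (fun s : ℝ => v + s • w) w 0 := by
        simpa using ((hasDerivAt_id (0:ℝ)).smul_const w).const_add v
      have h2 := hL.hasDerivAt_F_curve hx0 h1 (by simpa using hv)
      have h3 : IsLocalMin (fun s : ℝ => F x0 (v + s • w)) 0 := by
        filter_upwards with s
        simpa using hmin s
      have h4 := h3.hasDerivAt_eq_zero h2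
      simp only [zero_smul, add_zero] at h4
      have h5 := hR.radon x0 hx0 v w hv hw h4
      have h6 := hL.pv_le (w := w + t • v) hx0 (hF.norm x0 hx0) hw
      rw [FReg.pv_add, FReg.pv_smul, h5, mul_zero, add_zero, hL.pv_self hx0 hw] at h6
      exact h6

end AF

end Pool.Agent.H53.RP
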