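import Pool.Agent.H81.PDefs

/-!
Projective-metric planes without any condition on the metric circles, and symmetric
perpendicularity in the tangent Minkowski planes.
-/

open Set Filter Topology

namespace Pool.Agent.H53.RP

open Pool.Agent.H81

/-- Perpendicularity in the Minkowski plane with norm `N` is symmetric. Here `v` is perpendicular
to `w` if `0` is the foot of `v` on the line `ℝ w`, that is, `N v ≤ N (v + t • w)` for all `t`. -/
def NormSymPerp {E : Type} [AddCommGroup E] [Module ℝ E] (N : E → ℝ) : Prop :=
  ∀ v w : E, (∀ t : ℝ, N v ≤ N (v + t • w)) → ∀ t : ℝ, N w ≤ N (w + t • v)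

/-- `(M, d)` is a projective-metric plane with `M ⊆ ℝ²` (either `ℝ²` or a proper open convex
subset); this is `Pool.Agent.H81.AffinePlane` without the condition on the metric circles. -/
structure AffinePlane0 (M : Set (ℝ × ℝ)) (d : ℝ × ℝ → ℝ × ℝ → ℝ) : Prop where
  nonempty : M.Nonempty
  isOpen : IsOpen M
  convex : Convex ℝ M
  metric : CompleteMetric M d
  continuous : ContinuousOn (fun q : (ℝ × ℝ) × (ℝ × ℝ) => d q.1 q.2) (M ×ˢ M)
  /-- the geodesic lines (isometric images of `ℝ`) are exactly the `M`-lines -/
  geodesic : ∀ L : Set (ℝ × ℝ), (L ⊆ M ∧ ∃ γ : ℝ → ℝ × ℝ, range γ = L ∧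
    ∀ s t, d (γ s) (γ t) = |s - t|) ↔ L ∈ MLines M

/-- `(P², d)` is a projective-metric plane (of elliptic type); this is
`Pool.Agent.H81.EllipticPlane` without the condition on the metric circles. -/
structure EllipticPlane0 (d : P2 → P2 → ℝ) : Prop where
  metric : CompleteMetric univ d
  /-- continuity for the quotient topology -/
  continuous : Continuous fun q : {x : Fin 3 → ℝ // x ≠ 0} × {x : Fin 3 → ℝ // x ≠ 0} =>
    d (pt q.1.1 q.1.2) (pt q.2.1 q.2.2)
  /-- the (closed) geodesic lines, that is, the isometric images of Euclidean circles (with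
  their arc length metric), are exactly the projective lines -/
  geodesic : ∀ L : Set P2, (∃ a : ℝ, 0 < a ∧ ∃ γ : AddCircle a → P2, range γ = L ∧
    ∀ s t, d (γ s) (γ t) = dist s t) ↔ L ∈ PLines

end Pool.Agent.H53.RP
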