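import Pool.Agent.H53.RP.Defs
import Pool.Agent.H81.EllMain

/-!
The case of the projective plane without any condition on the metric circles: the metric in
homogeneous coordinates and local geodesic convexity.
-/

open Set Filter Topology Real MeasureTheory

namespace Pool.Agent.H53.RP

open Pool.Agent.H81

/-- what we use about the metric, in homogeneous coordinates (no circles) -/
structure HMet (D : E3 → E3 → ℝ) : Prop where
  smul_right : ∀ X Y : E3, X ≠ 0 → Y ≠ 0 → ∀ b : ℝ, b ≠ 0 → D X (b • Y) = D X Y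
  self : ∀ X : E3, X ≠ 0 → D X X = 0
  zero : ∀ X Y : E3, X ≠ 0 → Y ≠ 0 → D X Y = 0 → ∃ c : ℝ, Y = c • X
  symm : ∀ X Y : E3, X ≠ 0 → Y ≠ 0 → D X Y = D Y X
  tri : ∀ X Y Z : E3, X ≠ 0 → Y ≠ 0 → Z ≠ 0 → D X Z ≤ D X Y + D Y Z
  cont : ContinuousOn (fun q : E3 × E3 => D q.1 q.2) {q | q.1 ≠ 0 ∧ q.2 ≠ 0}
  line : ∀ X V : E3, LinearIndependent ℝ ![X, V] → ∃ h : ℝ, 0 < h ∧ ∃ g : ℝ → E3,
    (∀ s, g s ≠ 0 ∧ ∃ α β : ℝ, g s = α • X + β • V) ∧
    (∀ s0 α β : ℝ, α • X + β • V ≠ 0 → ∃ s, |s - s0| ≤ h ∧ ∃ c : ℝ, α • X + β • V = c • g s) ∧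
    (∀ s t, |s - t| ≤ h → D (g s) (g t) = |s - t|) ∧ ∀ s, g (s + 2 * h) = g s

theorem hMet {d : P2 → P2 → ℝ} (h : EllipticPlane0 d) : HMet (dv d) where
  smul_right := by
    intro X Y hX hY b hb
    have hbY : b • Y ≠ 0 := smul_ne_zero hb hY
    rw [dv_eq d hX hbY, dv_eq d hX hY]
    congr 1
    rw [pt_eq_iff]
    exact ⟨b⁻¹, by rw [smul_smul, inv_mul_cancel₀ hb, one_smul]⟩
  self := by
    intro X hX
    rw [dv_eq d hX hX]
    exact (h.metric.eq_zero _ (mem_univ _) _ (mem_univ _)).2 rfl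
  zero := by
    intro X Y hX hY h0
    rw [dv_eq d hX hY] at h0
    have := (h.metric.eq_zero _ (mem_univ _) _ (mem_univ _)).1 h0
    exact (pt_eq_iff hX hY).1 this
  symm := by
    intro X Y hX hY
    rw [dv_eq d hX hY, dv_eq d hY hX]
    exact h.metric.symm _ (mem_univ _) _ (mem_univ _)
  tri := by
    intro X Y Z hX hY hZ
    rw [dv_eq d hX hY, dv_eq d hY hZ, dv_eq d hX hZ]
    exact h.metric.triangle _ (mem_univ _) _ (mem_univ _) _ (mem_univ _)
  cont := by
    rw [continuousOn_iff_continuous_domRestrict]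
    have h2 : Continuous fun q : {q : E3 × E3 | q.1 ≠ 0 ∧ q.2 ≠ 0} =>
        (((⟨q.1.1, q.2.1⟩ : {x : E3 // x ≠ 0}), (⟨q.1.2, q.2.2⟩ : {x : E3 // x ≠ 0})) :
          {x : E3 // x ≠ 0} × {x : E3 // x ≠ 0}) := by
      apply Continuous.prodMk
      · exact Continuous.subtype_mk (continuous_fst.comp continuous_subtype_val) _
      · exact Continuous.subtype_mk (continuous_snd.comp continuous_subtype_val) _
    refine (h.continuous.comp h2).congr ?_
    intro q
    simp only [Function.comp, domRestrict_apply]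
    rw [dv_eq d q.2.1 q.2.2]
  line := by
    intro X V hXV
    obtain ⟨a, ha, γ, hr, hiso⟩ := (h.geodesic _).2 (pline_mem hXV)
    refine ⟨a / 2, by positivity, fun s => (γ (s : AddCircle a)).rep, ?_, ?_, ?_, ?_⟩
    · intro s
      refine ⟨Projectivization.rep_nonzero _, ?_⟩
      have h1 : γ (s : AddCircle a) ∈ range γ := mem_range_self _
      rw [hr] at h1
      rw [← (γ (s : AddCircle a)).mk_rep] at h1
      exact (pt_mem _).1 h1
    · intro s0 α β hne
      have h1 : pt (α • X + β • V) hne ∈ range γ := by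
        rw [hr]; exact (pt_mem hne).2 ⟨α, β, rfl⟩
      obtain ⟨θ, hθ⟩ := h1
      obtain ⟨u, rfl⟩ := QuotientAddGroup.mk_surjective θ
      refine ⟨s0 + ((u - s0) - round (a⁻¹ * (u - s0)) * a), ?_, ?_⟩
      · rw [add_sub_cancel_left]
        have h2 := abs_sub_round (a⁻¹ * (u - s0))
        have h3 : (u - s0) - round (a⁻¹ * (u - s0)) * a
            = a * (a⁻¹ * (u - s0) - round (a⁻¹ * (u - s0))) := by
          field_simp
        rw [h3, abs_mul, abs_of_pos ha]
        nlinarith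
      · have h4 : ((s0 + ((u - s0) - round (a⁻¹ * (u - s0)) * a) : ℝ) : AddCircle a)
            = (u : AddCircle a) := by
          have h6 : (s0 + ((u - s0) - round (a⁻¹ * (u - s0)) * a) : ℝ)
              = u - (round (a⁻¹ * (u - s0))) • a := by rw [zsmul_eq_mul]; ring
          rw [h6, AddCircle.coe_sub, AddCircle.coe_zsmul, AddCircle.coe_period, smul_zero,
            sub_zero]
        change ∃ c : ℝ, α • X + β • V = c • (γ ((s0 + ((u - s0) - round (a⁻¹ * (u - s0)) * a) : ℝ)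
          : AddCircle a)).rep
        rw [h4]
        have h5 : pt (γ (u : AddCircle a)).rep (Projectivization.rep_nonzero _)
            = pt (α • X + β • V) hne := by
          rw [← hθ]; exact (γ (u : AddCircle a)).mk_rep
        exact (pt_eq_iff _ _).1 h5
    · intro s t hst
      rw [dv_eq d (Projectivization.rep_nonzero _) (Projectivization.rep_nonzero _)]
      rw [show pt (γ (s : AddCircle a)).rep (Projectivization.rep_nonzero _) = γ (s : AddCircle a)
        from (γ (s : AddCircle a)).mk_rep,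
        show pt (γ (t : AddCircle a)).rep (Projectivization.rep_nonzero _) = γ (t : AddCircle a)
        from (γ (t : AddCircle a)).mk_rep, hiso, dist_eq_norm, ← AddCircle.coe_sub,
        AddCircle.norm_coe_eq_abs_iff a ha.ne', abs_of_pos ha]
      exact hst
    · intro s
      have : ((s + 2 * (a / 2) : ℝ) : AddCircle a) = (s : AddCircle a) := by
        rw [show s + 2 * (a / 2) = s + a by ring, AddCircle.coe_add, AddCircle.coe_period, add_zero]
      simp only [this]

variable {D : E3 → E3 → ℝ}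

namespace HMet

variable {D : E3 → E3 → ℝ}

lemma exists_line (h : HMet D) {X V : E3} (hXV : LinearIndependent ℝ ![X, V]) :
    ∃ r g, LineP D X V r g := by
  obtain ⟨r, hr, g, h1, h2, h3, h4⟩ := h.line X V hXV
  exact ⟨r, g, hr, h1, h2, h3, h4⟩

lemma smul_left (h : HMet D) {X Y : E3} (hX : X ≠ 0) (hY : Y ≠ 0) {b : ℝ} (hb : b ≠ 0) :
    D (b • X) Y = D X Y := by
  rw [h.symm _ _ (smul_ne_zero hb hX) hY, h.smul_right Y X hY hX b hb, h.symm _ _ hY hX]

lemma nonneg (h : HMet D) {X Y : E3} (hX : X ≠ 0) (hY : Y ≠ 0) : 0 ≤ D X Y := by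
  have h1 := h.tri X Y X hX hY hX
  rw [h.self X hX, h.symm Y X hY hX] at h1
  linarith

lemma DA_cont (h : HMet D) (A : Cht) :
    Continuous (fun q : (ℝ × ℝ) × (ℝ × ℝ) => DA D A q.1 q.2) := by
  have h1 : Continuous (fun q : (ℝ × ℝ) × (ℝ × ℝ) => ((A (q.1, 1), A (q.2, 1)) : E3 × E3)) := by
    apply Continuous.prodMk
    · exact A.continuous.comp (continuous_fst.prodMk continuous_const)
    · exact A.continuous.comp (continuous_snd.prodMk continuous_const)
  exact h.cont.comp_continuous h1 (fun q => ⟨A_ne A _, A_ne A _⟩)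

lemma DA_eq_zero (h : HMet D) (A : Cht) {x y : ℝ × ℝ} (h0 : DA D A x y = 0) : x = y := by
  obtain ⟨c, hc⟩ := h.zero _ _ (A_ne A x) (A_ne A y) h0
  rw [← map_smul] at hc
  have h1 := A.injective hc
  have h2 : (1:ℝ) = c * 1 := congrArg Prod.snd h1
  have h3 : y = c • x := congrArg Prod.fst h1
  have h4 : c = 1 := by linarith
  rw [h3, h4, one_smul]

lemma DA_self (h : HMet D) (A : Cht) (x : ℝ × ℝ) : DA D A x x = 0 := h.self _ (A_ne A x)

lemma DA_symm (h : HMet D) (A : Cht) (x y : ℝ × ℝ) : DA D A x y = DA D A y x :=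
  h.symm _ _ (A_ne A x) (A_ne A y)

lemma DA_tri (h : HMet D) (A : Cht) (x y z : ℝ × ℝ) :
    DA D A x z ≤ DA D A x y + DA D A y z := h.tri _ _ _ (A_ne A x) (A_ne A y) (A_ne A z)

end HMet

section line

variable {D : E3 → E3 → ℝ} {X V : E3} {h : ℝ} {g : ℝ → E3}

lemma ldist_eq (l : LineP D X V h g) (hP : HMet D) {P Q : E3} (hP0 : P ≠ 0) (hQ0 : Q ≠ 0)
    {a b s t : ℝ} (hPs : P = a • g s) (hQt : Q = b • g t) (hst : |s - t| ≤ h) :
    D P Q = |s - t| := by
  have ha : a ≠ 0 := by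
    intro h0; apply hP0; rw [hPs, h0, zero_smul]
  have hb : b ≠ 0 := by
    intro h0; apply hQ0; rw [hQt, h0, zero_smul]
  rw [hPs, hQt, hP.smul_left (l.mem s).1 (smul_ne_zero hb (l.mem t).1) ha,
    hP.smul_right _ _ (l.mem s).1 (l.mem t).1 b hb, l.iso s t hst]

/-- distances on the line are at most `h` -/
lemma ldist_le (l : LineP D X V h g) (hP : HMet D) {α β α' β' : ℝ}
    (h1 : α • X + β • V ≠ 0) (h2 : α' • X + β' • V ≠ 0) :
    D (α • X + β • V) (α' • X + β' • V) ≤ h := by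
  obtain ⟨s, c, hc⟩ := l.exists_param h1
  obtain ⟨t, ht, c', hc'⟩ := l.surj s α' β' h2
  have e : |s - t| = |t - s| := abs_sub_comm _ _
  rw [ldist_eq l hP h1 h2 hc hc' (by rw [e]; exact ht), e]
  exact ht

end line

/-- a local coordinate along a line -/
lemma coord {D : E3 → E3 → ℝ} (hP : HMet D) (A : Cht) {x v : ℝ × ℝ} (hv : v ≠ 0) {h : ℝ}
    {g : ℝ → E3} (l : LineP D (A (x, 1)) (A (v, 0)) h g) {a b s0 ts c0 : ℝ} (hab : a ≤ b)
    (hs0 : A (x + ts • v, 1) = c0 • g s0)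
    (hsm : ∀ t ∈ Icc a b, DA D A (x + ts • v) (x + t • v) < h / 2) :
    ∃ φ : ℝ → ℝ, (∀ t ∈ Icc a b, ∃ c : ℝ, A (x + t • v, 1) = c • g (φ t)) ∧
      (∀ t ∈ Icc a b, |φ t - s0| = DA D A (x + ts • v) (x + t • v)) ∧
      (∀ t ∈ Icc a b, ∀ t' ∈ Icc a b, DA D A (x + t • v) (x + t' • v) = |φ t - φ t'|) ∧
      ContinuousOn φ (Icc a b) ∧ (StrictMonoOn φ (Icc a b) ∨ StrictAntiOn φ (Icc a b)) := by
  have hA : ∀ t : ℝ, A (x + t • v, 1) = (1:ℝ) • A (x, 1) + t • A (v, 0) := by
    intro t; rw [A_comb]; simp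
  have hex : ∀ t : ℝ, ∃ s, |s - s0| ≤ h ∧ ∃ c : ℝ, A (x + t • v, 1) = c • g s := by
    intro t
    have := l.surj s0 1 t (by rw [← hA]; exact A_ne A _)
    rwa [← hA] at this
  choose φ hφ1 hφ2 using hex
  have hd0 : ∀ t, |φ t - s0| = DA D A (x + ts • v) (x + t • v) := by
    intro t
    obtain ⟨c, hc⟩ := hφ2 t
    rw [hP.DA_symm]
    exact (ldist_eq l hP (A_ne A _) (A_ne A _) hc hs0 (hφ1 t)).symm
  have hd : ∀ t ∈ Icc a b, ∀ t' ∈ Icc a b, DA D A (x + t • v) (x + t' • v) = |φ t - φ t'| := by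
    intro t ht t' ht'
    obtain ⟨c, hc⟩ := hφ2 t
    obtain ⟨c', hc'⟩ := hφ2 t'
    apply ldist_eq l hP (A_ne A _) (A_ne A _) hc hc'
    have h1 := hsm t ht
    have h2 := hsm t' ht'
    rw [← hd0] at h1 h2
    have : |φ t - φ t'| ≤ |φ t - s0| + |φ t' - s0| := by
      rw [abs_sub_comm (φ t') s0]; exact abs_sub_le _ _ _
    linarith
  have hc : ContinuousOn φ (Icc a b) := by
    intro t ht
    rw [ContinuousWithinAt, tendsto_iff_dist_tendsto_zero]
    have c1 : Continuous (fun b : ℝ => DA D A (x + b • v) (x + t • v)) := by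
      have c2 : Continuous fun b : ℝ => ((x + b • v, x + t • v) : (ℝ × ℝ) × (ℝ × ℝ)) := by
        fun_prop
      exact (hP.DA_cont A).comp c2
    have c3 : Tendsto (fun b : ℝ => DA D A (x + b • v) (x + t • v)) (𝓝[Icc a b] t)
        (𝓝 0) := by
      have := c1.continuousAt (x := t)
      rw [ContinuousAt, hP.DA_self] at this
      exact this.mono_left nhdsWithin_le_nhds
    apply c3.congr'
    filter_upwards [self_mem_nhdsWithin] with b hb
    rw [hd b hb t ht, Real.dist_eq]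
  have hinj : InjOn φ (Icc a b) := by
    intro t ht t' ht' htt
    have h1 := hd t ht t' ht'
    rw [htt, sub_self, abs_zero] at h1
    have h2 := hP.DA_eq_zero A h1
    have h3 : (t - t') • v = 0 := by
      rw [sub_smul, sub_eq_zero]; exact add_left_cancel h2
    rcases smul_eq_zero.1 h3 with h4 | h4
    · linarith
    · exact absurd h4 hv
  exact ⟨φ, fun t _ => hφ2 t, fun t _ => hd0 t, hd, hc, hc.strictMonoOn_of_injOn_Icc' hab hinj⟩

section

variable {F D : E3 → E3 → ℝ}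

/-- local geodesic convexity -/
theorem exists_locGeo (hP : HMet D) (hF : HFinsler F D) (A : Cht) (x0 : ℝ × ℝ) :
    ∃ ρ > 0, LocGeo (Metric.ball x0 ρ) (FA F A) (DA D A) := by
  -- lower bound for the length of lines
  set K : Set ((ℝ × ℝ) × (ℝ × ℝ)) := Metric.closedBall x0 1 ×ˢ Metric.sphere (0 : ℝ × ℝ) 1 with hK
  have hKc : IsCompact K := (isCompact_closedBall x0 1).prod (isCompact_sphere 0 1)
  have hKne : K.Nonempty := by
    refine ⟨(x0, (1, 0)), Metric.mem_closedBall_self zero_le_one, ?_⟩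
    simp [Prod.norm_def]
  have hfc : ContinuousOn (fun q : (ℝ × ℝ) × (ℝ × ℝ) => DA D A q.1 (q.1 + q.2)) K := by
    have c2 : Continuous fun q : (ℝ × ℝ) × (ℝ × ℝ) => ((q.1, q.1 + q.2) :
      (ℝ × ℝ) × (ℝ × ℝ)) := by fun_prop
    exact ((hP.DA_cont A).comp c2).continuousOn
  obtain ⟨q0, hq0, hmin⟩ := hKc.exists_isMinOn hKne hfc
  set δ := DA D A q0.1 (q0.1 + q0.2) with hδ
  have hδpos : 0 < δ := by
    rcases (hP.nonneg (A_ne A q0.1) (A_ne A (q0.1 + q0.2))).lt_or_eq with h1 | h1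
    · exact h1
    · exfalso
      have h2 := hP.DA_eq_zero A h1.symm
      have h3 : q0.2 = 0 := by simpa using h2.symm
      have h4 : q0.2 ∈ Metric.sphere (0 : ℝ × ℝ) 1 := hq0.2
      rw [h3] at h4
      simp at h4
  have hcont0 : ContinuousAt (fun q : (ℝ × ℝ) × (ℝ × ℝ) => DA D A q.1 q.2) (x0, x0) :=
    (hP.DA_cont A).continuousAt
  have hev : ∀ᶠ q : (ℝ × ℝ) × (ℝ × ℝ) in 𝓝 (x0, x0), DA D A q.1 q.2 < δ / 2 :=
    hcont0.eventually_lt_const (by change DA D A x0 x0 < δ / 2; rw [hP.DA_self]; linarith)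
  rw [Metric.eventually_nhds_iff_ball] at hev
  obtain ⟨ρ, hρ, hball⟩ := hev
  refine ⟨min ρ 1, lt_min hρ one_pos, ?_⟩
  set W := Metric.ball x0 (min ρ 1) with hW
  have hclose : ∀ x ∈ W, ∀ y ∈ W, DA D A x y < δ / 2 := by
    intro x hx y hy
    apply hball (x, y)
    rw [← ball_prod_same]
    exact ⟨Metric.ball_subset_ball (min_le_left _ _) hx, Metric.ball_subset_ball (min_le_left _ _) hy⟩
  refine ⟨(hF.freg A).mono_set Metric.isOpen_ball (subset_univ _), fun x _ => hF.scnorm A x,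
    convex_ball _ _, fun x _ => hP.DA_self A x, fun x _ y _ => hP.DA_symm A x y,
    fun x _ y _ z _ => hP.DA_tri A x y z, ?_, (hP.DA_cont A).continuousOn,
    fun x _ v hv => hF.lim A x hv⟩
  intro x hx y hy t ht
  by_cases hxy : y - x = 0
  · have hyx : y = x := sub_eq_zero.1 hxy
    subst hyx
    rw [sub_self, smul_zero, add_zero, hP.DA_self, add_zero]
  · obtain ⟨h, g, l⟩ := hP.exists_line (A_pair A x hxy)
    have hhδ : δ ≤ h := by
      set u := ‖y - x‖⁻¹ • (y - x) with hu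
      have hn : 0 < ‖y - x‖ := norm_pos_iff.2 hxy
      have hmem : (x, u) ∈ K := by
        refine ⟨?_, ?_⟩
        · have : x ∈ Metric.ball x0 1 := Metric.ball_subset_ball (min_le_right _ _) hx
          exact Metric.ball_subset_closedBall this
        · simp [hu, norm_smul, hn.ne']
      have h1 : δ ≤ DA D A x (x + u) := hmin hmem
      have e1 : A (x, 1) = (1:ℝ) • A (x, 1) + (0:ℝ) • A (y - x, 0) := by simp
      have e2 : A (x + u, 1) = (1:ℝ) • A (x, 1) + ‖y - x‖⁻¹ • A (y - x, 0) := by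
        rw [A_comb, hu]; simp
      have h2 := ldist_le l hP (α := 1) (β := 0) (α' := 1) (β' := ‖y - x‖⁻¹)
        (by rw [← e1]; exact A_ne A _) (by rw [← e2]; exact A_ne A _)
      rw [← e1, ← e2] at h2
      exact h1.trans h2
    have hseg : ∀ t ∈ Icc (0:ℝ) 1, x + t • (y - x) ∈ W := fun t ht =>
      (convex_ball x0 _).add_smul_sub_mem hx hy ht
    obtain ⟨s0, c0, hc0⟩ := l.exists_param (α := 1) (β := 0) (by
      rw [one_smul, zero_smul, add_zero]; exact A_ne A x)
    have hc0' : A (x + (0:ℝ) • (y - x), 1) = c0 • g s0 := by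
      rw [← hc0]; simp
    obtain ⟨φ, -, -, hd, -, hm⟩ := coord hP A hxy l zero_le_one hc0' (by
      intro t ht
      have h1 := hclose x hx _ (hseg t ht)
      rw [zero_smul, add_zero]
      linarith)
    have h0 : (0:ℝ) ∈ Icc (0:ℝ) 1 := by simp
    have h1 : (1:ℝ) ∈ Icc (0:ℝ) 1 := by simp
    have e0 := hd 0 h0 t ht
    have e1 := hd t ht 1 h1
    have e2 := hd 0 h0 1 h1
    rw [zero_smul, add_zero] at e0 e2
    rw [one_smul, add_sub_cancel] at e1 e2
    rw [e0, e1, e2]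
    rcases hm with hm | hm
    · have m1 := hm.monotoneOn h0 ht ht.1
      have m2 := hm.monotoneOn ht h1 ht.2
      rw [abs_of_nonpos (by linarith), abs_of_nonpos (by linarith), abs_of_nonpos (by linarith)]
      ring
    · have m1 := hm.antitoneOn h0 ht ht.1
      have m2 := hm.antitoneOn ht h1 ht.2
      rw [abs_of_nonneg (by linarith), abs_of_nonneg (by linarith), abs_of_nonneg (by linarith)]
      ring

end

end Pool.Agent.H53.RP
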