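import Pool.Agent.H53.RP.Ell
import Pool.Agent.H53.RP.Aff

/-!
The projective plane with symmetric perpendicularity in the tangent Minkowski planes.
-/

open Set Filter Topology Real MeasureTheory

namespace Pool.Agent.H53.RP

open Pool.Agent.H81

variable {F D : E3 → E3 → ℝ}

/-- the tangent norms in a chart -/
theorem ell_radonAt (hF : HFinsler F D) (hS : ∀ X : E3, X ≠ 0 → NormSymPerp (F X)) (A : Cht) (y : ℝ × ℝ) :
    RadonAt (FA F A) y := by
  refine radonAt_of (hF.freg A) (mem_univ y) (hF.scnorm A y) ?_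
  intro v w h1 t
  have e : ∀ (a b : ℝ × ℝ) (t : ℝ), A (a + t • b, 0) = A (a, 0) + t • A (b, 0) := by
    intro a b t
    rw [← map_smul, ← map_add]
    congr 1
    apply Prod.ext <;> simp
  have h2 := hS (A (y, 1)) (A_ne A y) (A (v, 0)) (A (w, 0)) (by
    intro t
    rw [← e]
    exact h1 t) t
  rw [← e] at h2
  exact h2

lemma ell_rreg (hP : HMet D) (hF : HFinsler F D) (hS : ∀ X : E3, X ≠ 0 → NormSymPerp (F X)) (A : Cht) : RReg univ (FA F A) where
  toFReg := hF.freg A
  radon := fun y _ => ell_radonAt hF hS A y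
  hamel := by
    intro y _
    obtain ⟨ρ, hρ, hL⟩ := exists_locGeo hP hF A y
    exact hL.hamel (Metric.mem_ball_self hρ)

theorem ell_euclAt (hP : HMet D) (hF : HFinsler F D) (hS : ∀ X : E3, X ≠ 0 → NormSymPerp (F X)) (A : Cht) (y : ℝ × ℝ) :
    EuclAt (FA F A) y := by
  have hR := ell_rreg hP hF hS A
  rcases hR.rigidity convex_univ with hE | ⟨b, hb1, hb2⟩
  · exact hE y (mem_univ y)
  · exfalso
    have hb : ∀ v, b v = 0 := by
      intro v
      by_contra hne
      have h1 := hb1 0 (mem_univ _) (-(th (FA F A) 0 / b v) • v) (mem_univ _)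
      rw [sub_zero, map_smul, smul_eq_mul] at h1
      have h2 : -(th (FA F A) 0 / b v) * b v = - th (FA F A) 0 := by field_simp
      rw [h2, add_neg_cancel] at h1
      exact (RReg.th_pos (F := FA F A) _).ne' h1
    have hFc : ∀ x v, v ≠ 0 → FA F A x v = FA F A 0 v := by
      intro x v hv
      have hd : ∀ y ∈ (univ : Set (ℝ × ℝ)),
          HasFDerivAt (fun y => FA F A y v) (0 : ℝ × ℝ →L[ℝ] ℝ) y := by
        intro y hy
        have c1 : HasFDerivAt (fun y : ℝ × ℝ => ((y, v) : (ℝ × ℝ) × (ℝ × ℝ)))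
            (ContinuousLinearMap.inl ℝ (ℝ × ℝ) (ℝ × ℝ)) y := hasFDerivAt_prodMk_left y v
        have c2 := (hR.hasF hy hv).comp y c1
        refine c2.congr_fderiv ?_
        ext
        · have := hb2 y hy v hv (1, 0)
          rw [hb, hb, zero_mul, zero_mul, add_zero, neg_zero] at this
          rcases mul_eq_zero.1 this with h3 | h3
          · exact absurd h3 (RReg.th_pos y).ne'
          · simpa [px] using h3
        · have := hb2 y hy v hv (0, 1)
          rw [hb, hb, zero_mul, zero_mul, add_zero, neg_zero] at this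
          rcases mul_eq_zero.1 this with h3 | h3
          · exact absurd h3 (RReg.th_pos y).ne'
          · simpa [px] using h3
      exact isOpen_univ.is_const_of_fderiv_eq_zero (𝕜 := ℝ) convex_univ.isPreconnected
        (f := fun y => FA F A y v)
        (fun y hy => (hd y hy).differentiableAt.differentiableWithinAt)
        (fun y hy => (hd y hy).fderiv) (mem_univ x) (mem_univ 0)
    -- go to infinity
    set e1 : ℝ × ℝ := (1, 0) with he1
    set e2 : ℝ × ℝ := (0, 1) with he2
    have he2ne : e2 ≠ 0 := e2_ne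
    have hpos := hR.pos 0 (mem_univ _) e2 he2ne
    have hXinf : A (e1, 0) ≠ 0 := by
      intro h0
      have h1 := A.map_eq_zero_iff.1 h0
      have h2 : e1 = 0 := congrArg Prod.fst h1
      exact e1_ne h2
    have hkey : ∀ s : ℝ, 0 < s → F (A (e1, s)) (A (e2, 0)) = s⁻¹ * FA F A 0 e2 := by
      intro s hs
      have h1 : A (e1, s) = s • A (s⁻¹ • e1, 1) := by
        rw [← map_smul]; congr 1
        apply Prod.ext
        · simp only [Prod.smul_fst]; rw [smul_smul, mul_inv_cancel₀ hs.ne', one_smul]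
        · simp
      have h2 : A (e2, 0) = s • A (s⁻¹ • e2, 0) + (0:ℝ) • A (s⁻¹ • e1, 1) := by
        rw [zero_smul, add_zero, ← map_smul]; congr 1
        apply Prod.ext
        · simp only [Prod.smul_fst]; rw [smul_smul, mul_inv_cancel₀ hs.ne', one_smul]
        · simp
      rw [h1, h2, hF.inv _ _ (A_ne A _) s 0 hs.ne']
      change FA F A (s⁻¹ • e1) (s⁻¹ • e2) = _
      rw [hR.hom _ (mem_univ _), abs_of_pos (inv_pos.2 hs), hFc _ _ he2ne]
    have hcF : ContinuousAt (fun s : ℝ => F (A (e1, s)) (A (e2, 0))) 0 := by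
      have h1 : ContinuousAt (fun q : E3 × E3 => F q.1 q.2) (A (e1, 0), A (e2, 0)) :=
        hF.cont.continuousAt ((isOpen_ne.preimage continuous_fst).mem_nhds hXinf)
      have h2 : Continuous (fun s : ℝ => ((A (e1, s), A (e2, 0)) : E3 × E3)) :=
        (A.continuous.comp (continuous_const.prodMk continuous_id)).prodMk continuous_const
      exact ContinuousAt.comp (f := fun s : ℝ => ((A (e1, s), A (e2, 0)) : E3 × E3))
        (g := fun q : E3 × E3 => F q.1 q.2) h1 h2.continuousAt
    have ht1 : Tendsto (fun s : ℝ => F (A (e1, s)) (A (e2, 0))) (𝓝[>] 0)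
        (𝓝 (F (A (e1, 0)) (A (e2, 0)))) := hcF.mono_left nhdsWithin_le_nhds
    have ht2 : Tendsto (fun s : ℝ => F (A (e1, s)) (A (e2, 0))) (𝓝[>] 0) atTop := by
      have h1 : Tendsto (fun s : ℝ => s⁻¹ * FA F A 0 e2) (𝓝[>] 0) atTop :=
        tendsto_inv_nhdsGT_zero.atTop_mul_const hpos
      apply h1.congr'
      filter_upwards [self_mem_nhdsWithin] with s hs
      exact (hkey s hs).symm
    exact not_tendsto_atTop_of_tendsto_nhds ht1 ht2

/-- the elliptic part of the theorem -/
theorem ell_main (hP : HMet D) (hF : HFinsler F D) (hS : ∀ X : E3, X ≠ 0 → NormSymPerp (F X)) {X : E3} (hX : X ≠ 0) :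
    EuclideanNorm (F X) := by
  obtain ⟨A, hA⟩ := HFinsler.exists_chart hX
  obtain ⟨a, b, c, habc⟩ := ell_euclAt hP hF hS A 0
  have hval : ∀ V, F X V ^ 2 = a * (A.symm V).1.1 ^ 2 + 2 * b * (A.symm V).1.1 * (A.symm V).1.2
      + c * (A.symm V).1.2 ^ 2 := by
    intro V
    rw [← habc]
    have h1 : V = (1:ℝ) • A ((A.symm V).1, 0) + (A.symm V).2 • X := by
      rw [← hA, A_comb]
      apply A.symm.injective
      rw [ContinuousLinearEquiv.symm_apply_apply]
      apply Prod.ext <;> simp
    have h2 : F X V = F ((1:ℝ) • X) ((1:ℝ) • A ((A.symm V).1, 0) + (A.symm V).2 • X) := by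
      rw [← h1, one_smul]
    rw [h2, hF.inv _ _ hX 1 _ one_ne_zero, ← hA]
    rfl
  refine ⟨LinearMap.mk₂ ℝ (fun V W : E3 => a * (A.symm V).1.1 * (A.symm W).1.1
    + b * ((A.symm V).1.1 * (A.symm W).1.2 + (A.symm V).1.2 * (A.symm W).1.1)
    + c * (A.symm V).1.2 * (A.symm W).1.2) ?_ ?_ ?_ ?_, ?_⟩
  · intro u v w; simp only [map_add, Prod.fst_add, Prod.snd_add]; ring
  · intro c v w; simp only [map_smul, Prod.smul_fst, Prod.smul_snd, smul_eq_mul]; ring
  · intro u v w; simp only [map_add, Prod.fst_add, Prod.snd_add]; ring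
  · intro c v w; simp only [map_smul, Prod.smul_fst, Prod.smul_snd, smul_eq_mul]; ring
  · intro V
    rw [LinearMap.mk₂_apply, hval V]; ring

end Pool.Agent.H53.RP
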